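import Pool.Agent.L7h17.OC.Stm

/-!
# Project OC, part CNT8
-/

set_option autoImplicit false

namespace Pool.Agent.L7h50.OC

open Pool.Agent.L7h17.OC Polynomial

/-- The second derivative of a polynomial of degree four has at most two zeros. -/
lemma no_three (p : Polynomial ℝ) (hp : p.natDegree ≤ 4) (hc : p.coeff 4 ≠ 0) (y0 y1 y2 : ℝ)
    (h01 : y0 < y1) (h12 : y1 < y2) (h0 : p.derivative.derivative.eval y0 = 0)
    (h1 : p.derivative.derivative.eval y1 = 0) (h2 : p.derivative.derivative.eval y2 = 0) :
    False := by
  have hd : p.derivative.derivative.natDegree ≤ 2 := by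
    have h1 := Polynomial.natDegree_derivative_le p
    have h2 := Polynomial.natDegree_derivative_le p.derivative
    omega
  have hz : p.derivative.derivative = 0 := by
    apply Polynomial.eq_zero_of_natDegree_lt_card_of_eval_eq_zero' _ ({y0, y1, y2} : Finset ℝ)
    · intro y hy
      simp only [Finset.mem_insert, Finset.mem_singleton] at hy
      rcases hy with rfl | rfl | rfl <;> assumption
    · have : ({y0, y1, y2} : Finset ℝ).card = 3 := by
        rw [Finset.card_eq_three]
        exact ⟨y0, y1, y2, h01.ne, (h01.trans h12).ne, h12.ne, rfl⟩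
      omega
  have h3 : (p.derivative.derivative).coeff 2 = 0 := by rw [hz]; simp
  rw [Polynomial.coeff_derivative, Polynomial.coeff_derivative] at h3
  norm_num at h3
  exact hc h3

/-- Five points on a horizontal line are impossible. -/
lemma no_five (hG : S_GRP) (p : Polynomial ℝ) (hp : p.natDegree ≤ 4) (hc : p.coeff 4 ≠ 0)
    (x0 x1 x2 x3 x4 : ℝ) (h0 : x0 < x1) (h1 : x1 < x2) (h2 : x2 < x3) (h3 : x3 < x4)
    (e1 : p.eval x0 = p.eval x1) (e2 : p.eval x1 = p.eval x2) (e3 : p.eval x2 = p.eval x3)
    (e4 : p.eval x3 = p.eval x4) : False := by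
  obtain ⟨y, hy1, hy2⟩ := hG p (p.eval x0) 0 5
    (fun i => if i = 0 then x0 else if i = 1 then x1 else if i = 2 then x2 else
      if i = 3 then x3 else x4) (by norm_num)
    (by
      intro i hi
      have hi' : i < 4 := by omega
      interval_cases i <;> simp <;> assumption)
    (by
      intro i hi
      interval_cases i <;> simp <;> linarith)
  exact no_three p hp hc (y 0) (y 1) (y 2) (hy1 0 (by norm_num)) (hy1 1 (by norm_num))
    (hy2 0 (by norm_num)).2.2 (hy2 1 (by norm_num)).2.2 (hy2 2 (by norm_num)).2.2

/-- Four points on a horizontal line, followed by three points on a horizontal line, are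
impossible. -/
lemma no_four_three (hG : S_GRP) (p : Polynomial ℝ) (hp : p.natDegree ≤ 4) (hc : p.coeff 4 ≠ 0)
    (x0 x1 x2 x3 x4 x5 x6 : ℝ) (h0 : x0 < x1) (h1 : x1 < x2) (h2 : x2 < x3) (h3 : x3 < x4)
    (h4 : x4 < x5) (h5 : x5 < x6)
    (e1 : p.eval x0 = p.eval x1) (e2 : p.eval x1 = p.eval x2) (e3 : p.eval x2 = p.eval x3)
    (e5 : p.eval x4 = p.eval x5) (e6 : p.eval x5 = p.eval x6) : False := by
  obtain ⟨y, hy1, hy2⟩ := hG p (p.eval x0) 0 4
    (fun i => if i = 0 then x0 else if i = 1 then x1 else if i = 2 then x2 else x3) (by norm_num)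
    (by
      intro i hi
      have hi' : i < 3 := by omega
      interval_cases i <;> simp <;> assumption)
    (by
      intro i hi
      interval_cases i <;> simp <;> linarith)
  obtain ⟨z, hz1, hz2⟩ := hG p (p.eval x4) 0 3
    (fun i => if i = 0 then x4 else if i = 1 then x5 else x6) (by norm_num)
    (by
      intro i hi
      have hi' : i < 2 := by omega
      interval_cases i <;> simp <;> assumption)
    (by
      intro i hi
      interval_cases i <;> simp <;> linarith)
  have hy3 := (hy2 1 (by norm_num)).2.1
  have hz3 := (hz2 0 (by norm_num)).1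
  simp at hy3 hz3
  exact no_three p hp hc (y 0) (y 1) (z 0) (hy1 0 (by norm_num)) (by linarith)
    (hy2 0 (by norm_num)).2.2 (hy2 1 (by norm_num)).2.2 (hz2 0 (by norm_num)).2.2

/-- Part CNT8 of project OC. -/
theorem s_CNT8 (hG : S_GRP) : S_CNT8 := by
  intro p r q a b hp hc hr hq hB J hJ
  obtain ⟨⟨ha0, hab, hba⟩, hpos, hDb, hDa, hneg⟩ := hB
  have hapos : ∀ j, j < q → 0 ≤ a j := by
    intro j
    induction j with
    | zero => intro _; exact ha0
    | succ j ih =>
      intro hj
      have h1 := ih (by omega)
      have h2 := hab j (by omega)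
      have h3 := hba j hj
      linarith
  have hb2 : ∀ j, j < q → (p.eval (b j)) ^ 2 = r ^ 2 := by
    intro j hj
    have := hDb j hj
    simp only at this
    linarith
  have hapos' : ∀ j, 0 < j → j < q → 0 < a j := by
    intro j hj0 hj
    obtain ⟨i, rfl⟩ : ∃ i, j = i + 1 := ⟨j - 1, by omega⟩
    have h1 := hapos i (by omega)
    have h2 := hab i (by omega)
    have h3 := hba i hj
    linarith
  have ha2 : ∀ j, 0 < j → j < q → (p.eval (a j)) ^ 2 = r ^ 2 := by
    intro j hj0 hj
    rcases hDa j hj with h | h
    · exact absurd h (hapos' j hj0 hj).ne'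
    · simp only at h
      linarith
  have hlink : ∀ j, j + 1 < q → p.eval (b j) = p.eval (a (j + 1)) := by
    intro j hj
    have h1 := hb2 j (by omega)
    have h2 := ha2 (j + 1) (by omega) hj
    by_contra hne
    have hopp : p.eval (b j) = - p.eval (a (j + 1)) := by
      have h3 : (p.eval (b j) - p.eval (a (j + 1))) * (p.eval (b j) + p.eval (a (j + 1))) = 0 := by
        linear_combination h1 - h2
      rcases mul_eq_zero.1 h3 with h | h
      · exact absurd (by linarith) hne
      · linarith
    have hlt := hba j hj
    have hcont : ContinuousOn (fun t => p.eval t) (Set.uIcc (b j) (a (j + 1))) :=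
      p.continuous.continuousOn
    have hivt := intermediate_value_uIcc hcont
    have h0 : (0 : ℝ) ∈ Set.uIcc (p.eval (b j)) (p.eval (a (j + 1))) := by
      rw [hopp, Set.mem_uIcc]
      rcases le_total 0 (p.eval (a (j + 1))) with h | h
      · left; constructor <;> linarith
      · right; constructor <;> linarith
    obtain ⟨t, ht, ht0⟩ := hivt h0
    rw [Set.uIcc_of_le hlt.le] at ht
    simp only at ht0
    have hr2 : 0 < r ^ 2 := by positivity
    have htb : t ≠ b j := by
      rintro rfl
      rw [ht0] at h1
      norm_num at h1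
      linarith
    have hta : t ≠ a (j + 1) := by
      rintro rfl
      rw [ht0] at h2
      norm_num at h2
      linarith
    have := hneg j hj t (lt_of_le_of_ne ht.1 (Ne.symm htb)) (lt_of_le_of_ne ht.2 hta)
    simp only [ht0] at this
    norm_num at this
    nlinarith
  have hbig : ∀ j, 0 < j → j ∈ J → p.eval (a j) = p.eval (b j) := by
    intro j hj0 hj
    obtain ⟨hjq, hB⟩ := hJ j hj
    have h1 := hb2 j hjq
    have h2 := ha2 j hj0 hjq
    rcases hB with h | h
    · exact absurd h (hapos' j hj0 hjq).ne'
    · simp only at h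
      have h3 : (p.eval (a j) - p.eval (b j)) * (p.eval (a j) + p.eval (b j)) = 0 := by
        linear_combination h2 - h1
      rcases mul_eq_zero.1 h3 with h' | h'
      · linarith
      · have h4 : p.eval (a j) = - p.eval (b j) := by linarith
        rw [h4] at h
        nlinarith [sq_nonneg (p.eval (b j))]
  by_contra hcard
  push Not at hcard
  have hJq : J ⊆ Finset.range q := fun j hj => Finset.mem_range.2 (hJ j hj).1
  have hcq : J.card ≤ q := by simpa using Finset.card_le_card hJq
  have key : ∀ i j : ℕ, i < 4 → j < 4 → i ≠ j → i ∈ J ∨ j ∈ J := by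
    intro i j hi hj hij
    by_contra hno
    push Not at hno
    have hsub : J ∪ {i, j} ⊆ Finset.range 4 := by
      intro k hk
      simp only [Finset.mem_union, Finset.mem_insert, Finset.mem_singleton] at hk
      rw [Finset.mem_range]
      rcases hk with hk | rfl | rfl
      · have := (hJ k hk).1
        omega
      · exact hi
      · exact hj
    have hdis : Disjoint J ({i, j} : Finset ℕ) := by
      rw [Finset.disjoint_right]
      intro k hk
      simp only [Finset.mem_insert, Finset.mem_singleton] at hk
      rcases hk with rfl | rfl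
      · exact hno.1
      · exact hno.2
    have h1 := Finset.card_le_card hsub
    rw [Finset.card_union_of_disjoint hdis, Finset.card_pair hij, Finset.card_range] at h1
    omega
  have hfive : ∀ i, 0 < i → i ∈ J → i + 1 ∈ J → False := by
    intro i hi0 hi hi1
    obtain ⟨k, rfl⟩ : ∃ k, i = k + 1 := ⟨i - 1, by omega⟩
    have hq1 := (hJ _ hi1).1
    exact no_five hG p hp hc (b k) (a (k + 1)) (b (k + 1)) (a (k + 1 + 1)) (b (k + 1 + 1))
      (hba k (by omega)) (hab _ (by omega)) (hba _ (by omega)) (hab _ (by omega))
      (hlink k (by omega)) (hbig _ (by omega) hi) (hlink _ (by omega)) (hbig _ (by omega) hi1)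
  by_cases h1 : 1 ∈ J
  · by_cases h2 : 2 ∈ J
    · exact hfive 1 (by norm_num) h1 h2
    · have h3 : 3 ∈ J := by
        rcases key 2 3 (by norm_num) (by norm_num) (by norm_num) with h | h
        · exact absurd h h2
        · exact h
      have hq3 := (hJ 3 h3).1
      exact no_four_three hG p hp hc (b 0) (a 1) (b 1) (a 2) (b 2) (a 3) (b 3)
        (hba 0 (by omega)) (hab 1 (by omega)) (hba 1 (by omega)) (hab 2 (by omega))
        (hba 2 (by omega)) (hab 3 (by omega)) (hlink 0 (by omega)) (hbig 1 (by norm_num) h1)
        (hlink 1 (by omega)) (hlink 2 (by omega)) (hbig 3 (by norm_num) h3)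
  · have h2 : 2 ∈ J := by
      rcases key 1 2 (by norm_num) (by norm_num) (by norm_num) with h | h
      · exact absurd h h1
      · exact h
    have h3 : 3 ∈ J := by
      rcases key 1 3 (by norm_num) (by norm_num) (by norm_num) with h | h
      · exact absurd h h1
      · exact h
    exact hfive 2 (by norm_num) h2 h3

end Pool.Agent.L7h50.OC
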